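import Mathlib
import Pool.Agent.H953Z.St

set_option autoImplicit false

open Filter Pool.Agent.H953Z

namespace Pool.Agent.H680Z.En

def Enum (x : ℤ → Bool) (T : ℤ → ℤ) : Prop := StrictMono T ∧ ∀ t, x t = true ↔ ∃ n, T n = t

theorem exists_enum (x : ℤ → Bool) (hx : InfOnes x) : ∃ T, Enum x T := by
  classical
  let S := {t : ℤ // x t = true}
  letI : SuccOrder S := LinearLocallyFiniteOrder.succOrder S
  letI : PredOrder S := LinearLocallyFiniteOrder.predOrder S
  haveI : NoMaxOrder S := ⟨fun a => by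
    obtain ⟨u, hu, hxu⟩ := (hx a.1).1
    exact ⟨⟨u, hxu⟩, hu⟩⟩
  haveI : NoMinOrder S := ⟨fun a => by
    obtain ⟨u, hu, hxu⟩ := (hx a.1).2
    exact ⟨⟨u, hxu⟩, hu⟩⟩
  haveI : Nonempty S := by
    obtain ⟨u, -, hxu⟩ := (hx 0).1
    exact ⟨⟨u, hxu⟩⟩
  let e : S ≃o ℤ := orderIsoIntOfLinearSuccPredArch
  refine ⟨fun n => (e.symm n).1, fun a b hab => e.symm.strictMono hab, fun t => ⟨fun h => ?_, ?_⟩⟩
  · exact ⟨e ⟨t, h⟩, by simp⟩
  · rintro ⟨n, rfl⟩
    exact (e.symm n).2

theorem step_up {x y : ℤ → Bool} {T U : ℤ → ℤ} (hT : Enum x T) (hU : Enum y U) {p q t τ : ℤ}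
    (h : T p - t = U q - τ)
    (ha : ∀ u, U q - τ ≤ u → u ≤ U (q + 1) - τ → x (t + u) = y (τ + u)) :
    T (p + 1) - t = U (q + 1) - τ := by
  have h1 : U q < U (q + 1) := hU.1 (by omega)
  have h2 : T p < T (p + 1) := hT.1 (by omega)
  have h3 : x (t + (U (q + 1) - τ)) = true := by
    rw [ha _ (by omega) le_rfl, hU.2]; exact ⟨q + 1, by ring⟩
  obtain ⟨k, hk⟩ := (hT.2 _).1 h3
  have h4 : p < k := hT.1.lt_iff_lt.mp (by omega)
  have h5 : T (p + 1) ≤ T k := hT.1.monotone (by omega)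
  have h6 : y (τ + (T (p + 1) - t)) = true := by
    rw [← ha _ (by omega) (by omega), hT.2]; exact ⟨p + 1, by ring⟩
  obtain ⟨l, hl⟩ := (hU.2 _).1 h6
  have h7 : q < l := hU.1.lt_iff_lt.mp (by omega)
  have h8 : U (q + 1) ≤ U l := hU.1.monotone (by omega)
  omega

theorem step_down {x y : ℤ → Bool} {T U : ℤ → ℤ} (hT : Enum x T) (hU : Enum y U) {p q t τ : ℤ}
    (h : T p - t = U q - τ)
    (ha : ∀ u, U (q - 1) - τ ≤ u → u ≤ U q - τ → x (t + u) = y (τ + u)) :
    T (p - 1) - t = U (q - 1) - τ := by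
  have h1 : U (q - 1) < U q := hU.1 (by omega)
  have h2 : T (p - 1) < T p := hT.1 (by omega)
  have h3 : x (t + (U (q - 1) - τ)) = true := by
    rw [ha _ le_rfl (by omega), hU.2]; exact ⟨q - 1, by ring⟩
  obtain ⟨k, hk⟩ := (hT.2 _).1 h3
  have h4 : k < p := hT.1.lt_iff_lt.mp (by omega)
  have h5 : T k ≤ T (p - 1) := hT.1.monotone (by omega)
  have h6 : y (τ + (T (p - 1) - t)) = true := by
    rw [← ha _ (by omega) (by omega), hT.2]; exact ⟨p - 1, by ring⟩
  obtain ⟨l, hl⟩ := (hU.2 _).1 h6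
  have h7 : l < q := hU.1.lt_iff_lt.mp (by omega)
  have h8 : U l ≤ U (q - 1) := hU.1.monotone (by omega)
  omega

theorem c2 {x y : ℤ → Bool} {T U : ℤ → ℤ} (hT : Enum x T) (hU : Enum y U) {n θ : ℤ} {A B : ℤ}
    (ha : ∀ u, U (θ - A) - U θ ≤ u → u ≤ U (θ + B) - U θ → x (T n + u) = y (U θ + u))
    (hA : 0 ≤ A) (hB : 0 ≤ B) (i : ℤ) : -A ≤ i → i ≤ B → T (n + i) - T n = U (θ + i) - U θ := by
  induction i using Int.induction_on with
  | zero => simp
  | succ i ih =>
    intro h1 h2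
    have := step_up hT hU (ih (by omega) (by omega)) (fun u hu1 hu2 => ha u
      (le_trans (by have := hU.1.monotone (show θ - A ≤ θ + i by omega); omega) hu1)
      (le_trans hu2 (by have := hU.1.monotone (show θ + i + 1 ≤ θ + B by omega); omega)))
    simpa [add_assoc] using this
  | pred i ih =>
    intro h1 h2
    have := step_down hT hU (ih (by omega) (by omega)) (fun u hu1 hu2 => ha u
      (le_trans (by have := hU.1.monotone (show θ - A ≤ θ + -i - 1 by omega); omega) hu1)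
      (le_trans hu2 (by have := hU.1.monotone (show θ + -i ≤ θ + B by omega); omega)))
    simpa [add_sub_assoc] using this

theorem gaps_eq {T : ℤ → ℤ} (hT : StrictMono T) (n : ℤ) : T (n + 1) = T n + gaps T n + 1 := by
  have : T n < T (n + 1) := hT (by omega)
  unfold gaps; omega

theorem c1a {T U : ℤ → ℤ} (hT : StrictMono T) (hU : StrictMono U) {n θ : ℤ} {A : ℤ} (hA : 0 ≤ A)
    (h : ∀ i : ℤ, |i| ≤ A → gaps T (n + i) = gaps U (θ + i)) (i : ℤ) :
    -A ≤ i → i ≤ A + 1 → T (n + i) - T n = U (θ + i) - U θ := by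
  induction i using Int.induction_on with
  | zero => simp
  | succ i ih =>
    intro h1 h2
    have e1 := ih (by omega) (by omega)
    have e2 := gaps_eq hT (n + i)
    have e3 := gaps_eq hU (θ + i)
    have e4 := h i (abs_le.mpr ⟨by omega, by omega⟩)
    rw [← add_assoc, ← add_assoc]; omega
  | pred i ih =>
    intro h1 h2
    have e1 := ih (by omega) (by omega)
    have e2 := gaps_eq hT (n + (-i - 1))
    have e3 := gaps_eq hU (θ + (-i - 1))
    have e4 := h (-i - 1) (abs_le.mpr ⟨by omega, by omega⟩)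
    rw [show n + (-(i : ℤ) - 1) + 1 = n + -i by ring] at e2
    rw [show θ + (-(i : ℤ) - 1) + 1 = θ + -i by ring] at e3
    omega

theorem c1b {x y : ℤ → Bool} {T U : ℤ → ℤ} (hT : Enum x T) (hU : Enum y U) {n θ : ℤ} {A B : ℤ}
    (hAB : -A ≤ B)
    (h : ∀ i, -A ≤ i → i ≤ B → T (n + i) - T n = U (θ + i) - U θ) (u : ℤ)
    (h1 : U (θ + -A) - U θ ≤ u) (h2 : u ≤ U (θ + B) - U θ) : x (T n + u) = y (U θ + u) := by
  have eA := h (-A) le_rfl hAB
  have eB := h B hAB le_rfl
  rw [Bool.eq_iff_iff, hT.2, hU.2]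
  constructor
  · rintro ⟨k, hk⟩
    have k1 : n + -A ≤ k := hT.1.le_iff_le.mp (by omega)
    have k2 : k ≤ n + B := hT.1.le_iff_le.mp (by omega)
    have := h (k - n) (by omega) (by omega)
    rw [show n + (k - n) = k by ring] at this
    exact ⟨θ + (k - n), by omega⟩
  · rintro ⟨k, hk⟩
    have k1 : θ + -A ≤ k := hU.1.le_iff_le.mp (by omega)
    have k2 : k ≤ θ + B := hU.1.le_iff_le.mp (by omega)
    have := h (k - θ) (by omega) (by omega)
    rw [show θ + (k - θ) = k by ring] at this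
    exact ⟨n + (k - θ), by omega⟩

theorem slot_iff {y : ℤ → Bool} {U : ℤ → ℤ} (hU : Enum y U) (m : ℕ) (θ : ℤ) :
    Slot m y (U θ) ↔ gaps U θ = m := by
  have e := gaps_eq hU.1 θ
  constructor
  · rintro ⟨-, h2, h3⟩
    obtain ⟨k, hk⟩ := (hU.2 _).1 h3
    have k1 : θ < k := hU.1.lt_iff_lt.mp (by omega)
    have k2 : U (θ + 1) ≤ U k := hU.1.monotone (by omega)
    by_contra hne
    have := h2 (gaps U θ + 1) (by omega) (by omega)
    have h4 : y (U (θ + 1)) = true := (hU.2 _).2 ⟨_, rfl⟩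
    rw [e] at h4
    push_cast at this
    rw [← add_assoc, h4] at this
    exact absurd this (by decide)
  · intro h
    refine ⟨(hU.2 _).2 ⟨_, rfl⟩, fun i h1 h2 => ?_, (hU.2 _).2 ⟨θ + 1, by omega⟩⟩
    by_contra hne
    obtain ⟨k, hk⟩ := (hU.2 (U θ + i)).1 (by simpa using hne)
    have k1 : θ < k := hU.1.lt_iff_lt.mp (by omega)
    have k2 : k < θ + 1 := hU.1.lt_iff_lt.mp (by omega)
    omega

theorem per_int {y : ℤ → Bool} {p : ℕ} (hp : ∀ t, y (t + p) = y t) (k t : ℤ) :
    y (t + k * p) = y t := by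
  induction k using Int.induction_on with
  | zero => simp
  | succ k ih => rw [← ih, ← hp (t + k * p)]; congr 1; ring
  | pred k ih => rw [← ih, ← hp (t + (-(k : ℤ) - 1) * p)]; congr 1; ring

theorem infOnes_of_per {y : ℤ → Bool} {p : ℕ} (hp0 : 0 < p) (hp : ∀ t, y (t + p) = y t)
    (h0 : y 0 = true) : InfOnes y := by
  intro t
  have hp1 : (1 : ℤ) ≤ p := by exact_mod_cast hp0
  have ha := abs_nonneg t
  refine ⟨⟨0 + (|t| + 1) * p, ?_, by rw [per_int hp, h0]⟩,
    ⟨0 + (-(|t| + 1)) * p, ?_, by rw [per_int hp, h0]⟩⟩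
  · have := le_abs_self t
    nlinarith
  · have := neg_abs_le t
    nlinarith

theorem exists_period {y : ℤ → Bool} {U : ℤ → ℤ} (hU : Enum y U) {p : ℕ} (hp0 : 0 < p)
    (hp : ∀ t, y (t + p) = y t) : ∃ s : ℕ, 0 < s ∧ ∀ i, U (i + s) = U i + p := by
  obtain ⟨k, hk⟩ := (hU.2 (U 0 + p)).1 (by rw [hp]; exact (hU.2 _).2 ⟨0, rfl⟩)
  have k1 : 0 < k := hU.1.lt_iff_lt.mp (by omega)
  refine ⟨k.toNat, by omega, fun i => ?_⟩
  have := c2 hU hU (n := k) (θ := 0) (A := |i|) (B := |i|)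
    (fun u _ _ => by rw [hk, add_right_comm, hp]) (abs_nonneg i) (abs_nonneg i) i
    (neg_abs_le i) (le_abs_self i)
  rw [Int.toNat_of_nonneg k1.le, add_comm i k]
  simp only [zero_add] at this
  omega

theorem period_mul {U : ℤ → ℤ} {s p : ℕ} (h : ∀ i, U (i + s) = U i + p) (N : ℕ) (i : ℤ) :
    U (i + (N * s : ℕ)) = U i + (N * p : ℕ) := by
  induction N with
  | zero => simp
  | succ N ih =>
    have := h (i + (N * s : ℕ))
    rw [ih] at this
    push_cast at this ⊢
    rw [show i + (N + 1) * s = i + N * s + s by ring, this]; ring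

theorem prod_shift {f : ℤ → ℝ} {A : ℕ} (hf : ∀ i, f i ≠ 0) (hA : ∀ i, f (i + A) = f i) (a : ℤ) :
    ∏ i ∈ Finset.range A, f (a + i) = ∏ i ∈ Finset.range A, f i := by
  have key : ∀ a : ℤ, ∏ i ∈ Finset.range A, f (a + 1 + i) = ∏ i ∈ Finset.range A, f (a + i) := by
    intro a
    have h1 := Finset.prod_range_succ (fun i : ℕ => f (a + i)) A
    have h2 := Finset.prod_range_succ' (fun i : ℕ => f (a + i)) A
    rw [h1, hA] at h2
    simp only [Nat.cast_zero, add_zero] at h2
    rw [mul_right_cancel₀ (hf a) h2]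
    exact Finset.prod_congr rfl fun i _ => by congr 1; push_cast; ring
  induction a using Int.induction_on with
  | zero => simp
  | succ k ih => rw [key, ih]
  | pred k ih => rw [← ih, ← key]; simp

theorem lam_pos : 0 < lam := by unfold lam; norm_num
theorem lam_lt : lam < 1 := by unfold lam; norm_num

theorem lamd_pos (d : ℕ) : 0 < lamd d := by unfold lamd; have := lam_pos; positivity

theorem lamd_le (d : ℕ) : lamd d ≤ lam := by
  unfold lamd
  apply div_le_self lam_pos.le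
  have : (0 : ℝ) ≤ d := Nat.cast_nonneg d
  nlinarith

theorem le_lamd (d : ℕ) : lam ^ (d + 1) ≤ lamd d := by
  unfold lamd
  rw [le_div_iff₀ (by positivity), pow_succ, mul_right_comm]
  apply mul_le_of_le_one_left lam_pos.le
  have h1 : ((d : ℝ) + 1) ≤ 2 ^ d := by
    have := Nat.lt_two_pow_self (n := d)
    exact_mod_cast this
  calc lam ^ d * ((d : ℝ) + 1) ^ 2 ≤ lam ^ d * (2 ^ d) ^ 2 := by
        have := lam_pos; gcongr
    _ = (lam * 4) ^ d := by rw [← pow_mul, mul_comm d 2, pow_mul, mul_pow]; norm_num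
    _ ≤ 1 := pow_le_one₀ (by have := lam_pos; positivity) (by unfold lam; norm_num)

theorem sum_gaps {U : ℤ → ℤ} (hU : StrictMono U) (A : ℕ) :
    ((∑ i ∈ Finset.range A, (gaps U i + 1) : ℕ) : ℤ) = U A - U 0 := by
  induction A with
  | zero => simp
  | succ A ih =>
    rw [Finset.sum_range_succ, Nat.cast_add, ih]
    have := gaps_eq hU A
    push_cast
    omega

theorem thm_enum : S_enum := by
  refine ⟨fun x hx => exists_enum x hx, fun P => ?_⟩
  have h1 : ∀ j, ∃ U, Enum (P.y (j + 1)) U := fun j =>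
    exists_enum _ (infOnes_of_per (P.n_pos _) (P.per _) (P.y_zero _))
  choose U hU using h1
  have h2 : ∀ j, ∃ s : ℕ, 0 < s ∧ ∀ i, U j (i + s) = U j i + P.n (j + 1) := fun j =>
    exists_period (hU j) (P.n_pos _) (P.per _)
  choose s hs0 hs using h2
  have hUA : ∀ j i, U j (i + (P.N j * s j : ℕ)) = U j i + (P.N j * P.n (j + 1) : ℕ) :=
    fun j i => period_mul (hs j) _ i
  have hD : ∀ j i, gaps (U j) (i + (P.N j * s j : ℕ)) = gaps (U j) i := by
    intro j i
    unfold gaps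
    rw [add_right_comm, hUA, hUA]
    congr 1; ring
  let rho : ℕ → ℝ := fun j => ∏ i ∈ Finset.range (P.N j * s j), lamd (gaps (U j) i)
  have hsh : ∀ j (a : ℤ), ∏ i ∈ Finset.range (P.N j * s j), lamd (gaps (U j) (a + i)) = rho j :=
    fun j a => prod_shift (f := fun i => lamd (gaps (U j) i)) (fun i => (lamd_pos _).ne')
      (fun i => by rw [hD]) a
  have hup : ∀ j, rho j ≤ lam ^ P.N j := by
    intro j
    calc rho j ≤ ∏ _i ∈ Finset.range (P.N j * s j), lam :=
          Finset.prod_le_prod (fun i _ => (lamd_pos _).le) (fun i _ => lamd_le _)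
      _ = lam ^ (P.N j * s j) := by simp
      _ ≤ lam ^ P.N j := pow_le_pow_of_le_one lam_pos.le lam_lt.le
          (Nat.le_mul_of_pos_right _ (hs0 j))
  have hlow : ∀ j, lam ^ (P.N j * P.n (j + 1)) ≤ rho j := by
    intro j
    have e := sum_gaps (hU j).1 (P.N j * s j)
    have e2 := hUA j 0
    rw [zero_add] at e2
    rw [e2, add_sub_cancel_left, Nat.cast_inj] at e
    rw [← e, ← Finset.prod_pow_eq_pow_sum]
    exact Finset.prod_le_prod (fun i _ => (pow_pos lam_pos _).le) (fun i _ => le_lamd _)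
  have hN : ∀ j, j ≤ P.N j := by
    intro j
    cases j with
    | zero => omega
    | succ j =>
      obtain ⟨τ, t1, t2, -⟩ := P.slot j
      have h3 : P.m j < P.n (j + 1) := by
        by_contra hc
        have := t2 (P.n (j + 1)) (P.n_pos _) (by omega)
        rw [P.per, t1] at this
        exact absurd this (by decide)
      have h4 : j ≤ P.m j := P.m_mono.id_le j
      have h5 := P.grow j
      have h6 : P.n (j + 1) ≤ P.N j * P.n (j + 1) := Nat.le_mul_of_pos_left _ (P.N_pos j)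
      omega
  refine ⟨{
    m := P.m
    A := fun j => P.N j * s j
    rho := rho
    Mt := fun j d n => ∃ θ : ℤ, gaps (U j) θ = P.m j ∧
      ∀ i : ℤ, |i| ≤ (P.N j * s j : ℕ) → d (n + i) = gaps (U j) (θ + i)
    m_inj := P.m_mono.injective
    A_pos := fun j => Nat.mul_pos (P.N_pos j) (hs0 j)
    rho_pos := fun j => Finset.prod_pos fun i _ => lamd_pos _
    rho_le := fun j => (hup j).trans (by
      simpa using pow_le_pow_of_le_one lam_pos.le lam_lt.le (P.N_pos j))
    rho_anti := antitone_nat_of_succ_le fun j => (hup (j + 1)).trans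
      ((pow_le_pow_of_le_one lam_pos.le lam_lt.le (P.grow j)).trans (hlow j))
    rho_lim := squeeze_zero (fun j => (Finset.prod_pos fun i _ => lamd_pos _).le)
      (fun j => (hup j).trans (pow_le_pow_of_le_one lam_pos.le lam_lt.le (hN j)))
      (tendsto_pow_atTop_nhds_zero_of_lt_one lam_pos.le lam_lt)
    at_mid := ?_
    at_fut := ?_
    at_past := ?_
    fut := ?_
    past := ?_
    loc := ?_ }, rfl, ?_⟩
  · rintro j d n ⟨θ, h1, h2⟩
    simpa [h1] using h2 0 (by simp; positivity)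
  · rintro j d n ⟨θ, h1, h2⟩
    rw [h2 _ (by rw [Nat.abs_cast]), hD, h1]
  · rintro j d n ⟨θ, h1, h2⟩
    rw [sub_eq_add_neg, h2 _ (by rw [abs_neg, Nat.abs_cast]), ← hD, ← h1]
    congr 1; ring
  · rintro j d n ⟨θ, h1, h2⟩
    rw [← hsh j (θ + 1)]
    refine Finset.prod_congr rfl fun i hi => ?_
    have := Finset.mem_range.mp hi
    rw [add_assoc, h2 _ (abs_le.mpr ⟨by omega, by omega⟩)]
    congr 2; ring
  · rintro j d n ⟨θ, h1, h2⟩
    rw [← hsh j (θ - (P.N j * s j : ℕ)), ← Finset.prod_range_reflect]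
    refine Finset.prod_congr rfl fun i hi => ?_
    have := Finset.mem_range.mp hi
    generalize P.N j * s j = A at *
    rw [show n - ((A - 1 - i : ℕ) : ℤ) - 1 = n + (i - A) by omega,
      h2 _ (abs_le.mpr ⟨by omega, by omega⟩)]
    congr 2; ring
  · rintro j d d' n n' ⟨θ, h1, h2⟩ h
    exact ⟨θ, h1, fun i hi => (h i hi).trans (h2 i hi)⟩
  · intro x T hT hx j n
    have hE : Enum x T := ⟨hT, hx⟩
    have hb : ∀ θ, gaps (U j) θ = P.m j →
        U j (θ + -(P.N j * s j : ℕ)) - U j θ = -((P.N j * P.n (j + 1) : ℕ) : ℤ) ∧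
        U j (θ + ((P.N j * s j : ℕ) + 1)) - U j θ =
          ((P.N j * P.n (j + 1) + P.m j + 1 : ℕ) : ℤ) := by
      intro θ hθ
      have e1 := hUA j (θ + -(P.N j * s j : ℕ))
      rw [neg_add_cancel_right] at e1
      have e2 := hUA j (θ + 1)
      have e3 := gaps_eq (hU j).1 θ
      rw [show θ + (((P.N j * s j : ℕ) : ℤ) + 1) = θ + 1 + (P.N j * s j : ℕ) by ring]
      constructor <;> omega
    constructor
    · rintro ⟨τ, hτ, ha⟩
      obtain ⟨θ, rfl⟩ := ((hU j).2 τ).1 hτ.1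
      have hθ := (slot_iff (hU j) _ θ).1 hτ
      obtain ⟨b1, b2⟩ := hb θ hθ
      refine ⟨θ, hθ, fun i hi => ?_⟩
      have hc := c2 hE (hU j) (n := n) (θ := θ) (A := (P.N j * s j : ℕ))
        (B := (P.N j * s j : ℕ) + 1)
        (fun u u1 u2 => ha u (by rw [sub_eq_add_neg θ] at u1; omega) (by omega))
        (by positivity) (by positivity)
      have hi' := abs_le.mp hi
      have e1 := hc i (by omega) (by omega)
      have e2 := hc (i + 1) (by omega) (by omega)
      rw [← add_assoc, ← add_assoc] at e2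
      unfold gaps
      congr 1; omega
    · rintro ⟨θ, hθ, h⟩
      obtain ⟨b1, b2⟩ := hb θ hθ
      refine ⟨U j θ, (slot_iff (hU j) _ θ).2 hθ, fun u u1 u2 => ?_⟩
      exact c1b hE (hU j) (A := (P.N j * s j : ℕ)) (B := (P.N j * s j : ℕ) + 1) (by omega)
        (c1a hT (hU j).1 (by positivity) h) u (by omega) (by omega)

end Pool.Agent.H680Z.En
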